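import Pool.Agent.N875.K15.Stm
import Pool.Agent.N391.K17.N17

/-!
# Project K15 (helper875), part 5N (helper82): the necessary condition at the places over `5`

Adapted from `Pool/Agent/N391/K17/N17.lean` (helper391).
-/

set_option autoImplicit false

open NumberField IsDedekindDomain WithZero

namespace Pool.Agent.N82.K15

open Pool.Agent.N49.QB (VV)
open Pool.Agent.N391.K17 (isq_div vv_sqf sq_res)

/-! ### the points -/

section
variable {L : Type} [Field L] (V : Valuation L ℤᵐ⁰)

/-- the coordinate `x` of a point is a square -/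
theorem pt_sq (h5 : V (5 : L) < 1) (h4 : V (4 : L) = 1) (h9 : V (9 : L) = 1)
    (h16 : V (16 : L) = 1) (h29 : V (29 : L) ≤ 1)
    (hh : ∀ z : L, V (z - 1) < 1 → IsSquare z) {x y : L} (hy : y ≠ 0)
    (he : y ^ 2 = x * ((x + 9) * (x - 16))) : IsSquare x := by
  have h40 : (4 : L) ≠ 0 := fun h => by
    rw [h, map_zero] at h4
    exact zero_ne_one h4
  have h90 : (9 : L) ≠ 0 := fun h => by
    rw [h, map_zero] at h9
    exact zero_ne_one h9
  have h160 : (16 : L) ≠ 0 := fun h => by
    rw [h, map_zero] at h16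
    exact zero_ne_one h16
  have hy2 : y ^ 2 ≠ 0 := pow_ne_zero 2 hy
  have hx : x ≠ 0 := by rintro rfl; rw [he] at hy2; simp at hy2
  have hp : (x + 9) * (x - 16) ≠ 0 := by intro h; rw [he, h] at hy2; simp at hy2
  have hm1 : IsSquare (-1 : L) := by
    have h1 : IsSquare (-(1 / 4) : L) := by
      apply hh
      have e : (-(1 / 4) : L) - 1 = -(5 / 4) := by
        field_simp
        norm_num
      rw [e, Valuation.map_neg, map_div₀, h4, div_one]
      exact h5
    have h2 : IsSquare (4 : L) := ⟨2, by norm_num⟩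
    have h3 := h1.mul h2
    have e : (-(1 / 4) : L) * 4 = -1 := by field_simp
    rwa [e] at h3
  suffices hs : IsSquare ((x + 9) * (x - 16)) ∨ IsSquare x by
    rcases hs with hs | hs
    · exact isq_div hp he hs
    · exact hs
  have hvx : V x ≠ 0 := (V.ne_zero_iff).2 hx
  rcases lt_trichotomy (V x) 1 with h | h | h
  · left
    have a1 : IsSquare (1 + x / 9) := hh _ (by
      have e : 1 + x / 9 - 1 = x / 9 := by ring
      rw [e, map_div₀, h9, div_one]
      exact h)
    have a2 : IsSquare (1 - x / 16) := hh _ (by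
      have e : 1 - x / 16 - 1 = -(x / 16) := by ring
      rw [e, Valuation.map_neg, map_div₀, h16, div_one]
      exact h)
    have a3 : IsSquare (9 * 16 : L) := ⟨12, by norm_num⟩
    have e : (x + 9) * (x - 16) = -1 * (9 * 16) * ((1 + x / 9) * (1 - x / 16)) := by
      field_simp
      ring
    rw [e]
    exact (hm1.mul a3).mul (a1.mul a2)
  · by_cases h1 : V (x - 1) < 1
    · right
      exact hh x h1
    · left
      have h2 : V (x - 1) = 1 :=
        le_antisymm (V.map_sub_le h.le (by rw [map_one])) (not_lt.1 h1)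
      have hx1 : x - 1 ≠ 0 := fun h3 => by
        rw [h3, map_zero] at h2
        exact zero_ne_one h2
      have h6 : V (5 * (x + 29)) < 1 := by
        rw [map_mul]
        exact mul_lt_one_of_lt_of_le h5 (V.map_add_le h.le h29)
      have a1 : IsSquare (1 - 5 * (x + 29) / ((x - 1) * (x - 1))) := hh _ (by
        have e : 1 - 5 * (x + 29) / ((x - 1) * (x - 1)) - 1 =
            -(5 * (x + 29) / ((x - 1) * (x - 1))) := by ring
        rw [e, Valuation.map_neg, map_div₀, map_mul V (x - 1), h2, mul_one, div_one]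
        exact h6)
      have e : (x + 9) * (x - 16) =
          (x - 1) * (x - 1) * (1 - 5 * (x + 29) / ((x - 1) * (x - 1))) := by
        field_simp
        ring
      rw [e]
      exact (IsSquare.mul_self (x - 1)).mul a1
  · left
    have h3 : V (1 / x) < 1 := by
      rw [map_div₀, map_one]
      exact (div_lt_one₀ (zero_lt_iff.2 hvx)).2 h
    have a1 : IsSquare (1 + 9 / x) := hh _ (by
      have e : 1 + 9 / x - 1 = 9 * (1 / x) := by ring
      rw [e, map_mul, h9, one_mul]
      exact h3)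
    have a2 : IsSquare (1 - 16 / x) := hh _ (by
      have e : 1 - 16 / x - 1 = -(16 * (1 / x)) := by ring
      rw [e, Valuation.map_neg, map_mul, h16, one_mul]
      exact h3)
    have e : (x + 9) * (x - 16) = x * x * ((1 + 9 / x) * (1 - 16 / x)) := by
      field_simp
    rw [e]
    exact (IsSquare.mul_self x).mul (a1.mul a2)

end

instance : Fact (Nat.Prime 5) := ⟨by norm_num⟩

lemma jac_one {n : ℤ} (hn : ¬ (5 : ℤ) ∣ n) (h : ∃ k : ℤ, (5 : ℤ) ∣ k ^ 2 - n) :
    jacobiSym n 5 = 1 := by
  have h0 : (n : ZMod 5) ≠ 0 := by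
    rw [Ne, ZMod.intCast_zmod_eq_zero_iff_dvd]
    exact hn
  have e := jacobiSym.legendreSym.to_jacobiSym 5 n
  rw [← e, legendreSym.eq_one_iff 5 h0]
  obtain ⟨k, hk⟩ := h
  refine ⟨(k : ZMod 5), ?_⟩
  have h1 : (((k ^ 2 - n : ℤ)) : ZMod 5) = 0 := by
    rw [ZMod.intCast_zmod_eq_zero_iff_dvd]
    exact hk
  push_cast at h1
  linear_combination -h1

lemma jac_ex {n : ℤ} (h : jacobiSym n 5 = 1) : ∃ k : ℤ, (5 : ℤ) ∣ k ^ 2 - n := by
  have e := jacobiSym.legendreSym.to_jacobiSym 5 n
  rw [← e] at h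
  have h0 : (n : ZMod 5) ≠ 0 := by
    intro h0
    rw [(legendreSym.eq_zero_iff 5 n).2 h0] at h
    exact zero_ne_one h
  obtain ⟨k, hk⟩ := (legendreSym.eq_one_iff 5 h0).1 h
  refine ⟨(k.val : ℤ), ?_⟩
  have h1 : ((((k.val : ℤ)) ^ 2 - n : ℤ) : ZMod 5) = 0 := by
    push_cast
    rw [ZMod.natCast_zmod_val, hk]
    ring
  rw [ZMod.intCast_zmod_eq_zero_iff_dvd] at h1
  exact h1

theorem t_5N : Pool.Agent.N875.K15.S_5N := by
  intro m hm hm1 K _ _ r hq w hw a b ha hb hL
  have hp : Nat.Prime 5 := by norm_num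
  have hpZ : Prime (5 : ℤ) := by exact_mod_cast Nat.prime_iff_prime_int.1 hp
  have hw' : ((5 : ℕ) : 𝓞 K) ∈ w.asIdeal := by exact_mod_cast hw
  obtain ⟨x, y, hy0, he, hsa, -⟩ := hL
  have he' : y ^ 2 = x * ((x + 9) * (x - 16)) := by
    rw [he]
    push_cast
    ring
  have hsa' : IsSquare (x * (a : w.adicCompletion K)) := by
    have e : x * (a : w.adicCompletion K) = (x - ((0 : ℤ) : w.adicCompletion K)) * a := by
      push_cast
      ring
    rw [e]
    exact hsa
  have h5 : VV w (5 : w.adicCompletion K) < 1 := by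
    have := Pool.Agent.N49.QB.vv_emb w _ hw
    rwa [map_ofNat] at this
  have h4 : VV w (4 : w.adicCompletion K) = 1 := by
    have := Pool.Agent.N49.QB.vv_one hp w hw' 4 (by norm_num)
    exact_mod_cast this
  have h9 : VV w (9 : w.adicCompletion K) = 1 := by
    have := Pool.Agent.N49.QB.vv_one hp w hw' 9 (by norm_num)
    exact_mod_cast this
  have h16 : VV w (16 : w.adicCompletion K) = 1 := by
    have := Pool.Agent.N49.QB.vv_one hp w hw' 16 (by norm_num)
    exact_mod_cast this
  have h29 : VV w (29 : w.adicCompletion K) ≤ 1 := by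
    have := Pool.Agent.N49.QB.vv_one hp w hw' 29 (by norm_num)
    exact le_of_eq (by exact_mod_cast this)
  have hh : ∀ z : w.adicCompletion K, VV w (z - 1) < 1 → IsSquare z :=
    fun z hz => Pool.Agent.N49.QB.hensel hp (by norm_num) w hw' z hz
  have hxs := pt_sq (VV w) h5 h4 h9 h16 h29 hh hy0 he'
  have hx0 : x ≠ 0 := by
    rintro rfl
    rw [zero_mul] at he'
    exact pow_ne_zero 2 hy0 he'
  -- `a` is a square
  have has : IsSquare (a : w.adicCompletion K) := by
    obtain ⟨s, hs⟩ := hsa'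
    exact isq_div (z := s) hx0 (by rw [sq, ← hs, mul_comm]) hxs
  have h2m : ¬ (5 : ℤ) ∣ m → ¬ ((5 : ℕ) : ℤ) ∣ 2 * m := by
    intro h h'
    rcases hpZ.dvd_or_dvd (by exact_mod_cast h') with h2 | h2
    · norm_num at h2
    · exact h h2
  -- unramified: `5 ∤ a`
  have hun : ¬ (5 : ℤ) ∣ m → ¬ (5 : ℤ) ∣ a := by
    intro h h'
    have h1 := vv_sqf hq hp (h2m h) w hw' a ha (by exact_mod_cast h')
    obtain ⟨s, hs⟩ := has
    have h3 := congrArg (VV w) hs
    rw [map_mul, h1] at h3
    exact Pool.Agent.N49.QB.not_isq ⟨_, h3⟩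
  have hres : ∀ c : ℤ, (5 : ℤ) ∣ c ^ 2 - m → ∀ n : ℤ, ¬ (5 : ℤ) ∣ n →
      IsSquare (n : w.adicCompletion K) → jacobiSym n 5 = 1 := by
    intro c hc n hn hs
    refine jac_one hn ?_
    obtain ⟨k, hk⟩ := sq_res hq hm hm1 hp (by norm_num) w hw' c (by exact_mod_cast hc) n hs
    exact ⟨k, by exact_mod_cast hk⟩
  have hjz : ∀ {n : ℤ}, (5 : ℤ) ∣ n → jacobiSym n 5 = 0 := by
    intro n hn
    rw [← jacobiSym.legendreSym.to_jacobiSym 5 n, legendreSym.eq_zero_iff,
      ZMod.intCast_zmod_eq_zero_iff_dvd]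
    exact hn
  refine ⟨fun h => hun fun h' => ?_, fun h => ?_, fun h => ?_⟩
  · rw [hjz h'] at h
    norm_num at h
  · obtain ⟨c, hc⟩ := jac_ex h
    exact hres c hc a (hun fun h' => by rw [hjz h'] at h; norm_num at h) has
  · have hc : (5 : ℤ) ∣ (0 : ℤ) ^ 2 - m := by
      have e : (0 : ℤ) ^ 2 - m = -m := by ring
      rw [e]
      exact (dvd_neg).2 h
    by_cases h1 : (5 : ℤ) ∣ a
    · right
      refine ⟨h1, ?_⟩
      obtain ⟨a', rfl⟩ := h1
      obtain ⟨m', rfl⟩ := h
      rw [Int.mul_ediv_cancel_left _ (by norm_num), Int.mul_ediv_cancel_left _ (by norm_num)]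
      have hnu : ∀ {z : ℤ}, Squarefree (5 * z) → ¬ (5 : ℤ) ∣ z := by
        rintro z hz ⟨u, rfl⟩
        exact hpZ.not_isUnit (hz 5 ⟨u, by ring⟩)
      refine hres 0 hc _ (fun h2 => ?_) ?_
      · rcases hpZ.dvd_or_dvd h2 with h3 | h3
        · exact hnu ha h3
        · exact hnu hm h3
      · -- `a m = 5² n`
        have hms : IsSquare ((5 * m' : ℤ) : w.adicCompletion K) := by
          refine ⟨algebraMap K (w.adicCompletion K) r, ?_⟩
          rw [← map_mul, ← sq, hq.hr, map_intCast]
        have h50 : (5 : w.adicCompletion K) ≠ 0 := by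
          have h3 : ((5 : ℕ) : w.adicCompletion K) ≠ 0 := by
            have : CharZero (w.adicCompletion K) :=
              charZero_of_injective_algebraMap (algebraMap K (w.adicCompletion K)).injective
            exact Nat.cast_ne_zero.2 (by norm_num)
          exact_mod_cast h3
        obtain ⟨t, ht⟩ := has.mul hms
        refine ⟨t / 5, ?_⟩
        rw [div_mul_div_comm, ← ht]
        push_cast
        field_simp
    · left
      exact hres 0 hc a h1 has

end Pool.Agent.N82.K15
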